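import Pool.Agent.HF.Stmts

/-!
Squad HF, modules SRC and GE1.
-/

set_option autoImplicit false

namespace Pool.Agent.HF.H21

open Pool.Agent.HF

section

variable {G D : Type} [Group G] [DivisionRing D] (sg : G →* D)

theorem DS_mono {S T : Set G} (h : S ⊆ T) : DS sg S ≤ DS sg T :=
  Subfield.closure_mono (Set.image_mono h)

theorem sg_mem {S : Set G} {g : G} (hg : g ∈ S) : sg g ∈ DS sg S :=
  Subfield.subset_closure ⟨g, hg, rfl⟩

theorem sg_cancel (g : G) : sg g * sg g⁻¹ = 1 := by rw [← map_mul, mul_inv_cancel, map_one]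

theorem sg_cancel' (g : G) : sg g⁻¹ * sg g = 1 := by rw [← map_mul, inv_mul_cancel, map_one]

theorem sg_inv (g : G) : (sg g)⁻¹ = sg g⁻¹ := inv_eq_of_mul_eq_one_right (sg_cancel sg g)

/-- Conjugation. -/
theorem DS_conj {S T : Set G} (g : G) (h : ∀ s ∈ S, g * s * g⁻¹ ∈ T) {x : D} (hx : x ∈ DS sg S) :
    sg g * x * sg g⁻¹ ∈ DS sg T := by
  refine Subfield.closure_induction (s := sg '' S)
    (p := fun x _ => sg g * x * sg g⁻¹ ∈ DS sg T) ?_ ?_ ?_ ?_ ?_ ?_ hx
  · rintro _ ⟨s, hs, rfl⟩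
    rw [← map_mul, ← map_mul]
    exact sg_mem sg (h s hs)
  · rw [mul_one, sg_cancel]
    exact one_mem _
  · intro a b _ _ ha hb
    rw [mul_add, add_mul]
    exact add_mem ha hb
  · intro a _ ha
    rw [mul_neg, neg_mul]
    exact neg_mem ha
  · intro a _ ha
    have : sg g * a⁻¹ * sg g⁻¹ = (sg g * a * sg g⁻¹)⁻¹ := by
      rw [mul_inv_rev, mul_inv_rev, sg_inv, sg_inv, inv_inv, mul_assoc]
    rw [this]
    exact inv_mem ha
  · intro a b _ _ ha hb
    have : sg g * (a * b) * sg g⁻¹ = (sg g * a * sg g⁻¹) * (sg g * b * sg g⁻¹) := by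
      have h1 := sg_cancel' sg g
      calc sg g * (a * b) * sg g⁻¹ = sg g * a * 1 * (b * sg g⁻¹) := by noncomm_ring
        _ = sg g * a * (sg g⁻¹ * sg g) * (b * sg g⁻¹) := by rw [h1]
        _ = _ := by noncomm_ring
    rw [this]
    exact mul_mem ha hb

theorem DS_conj_map (H : Subgroup G) (g : G) {x : D} (hx : x ∈ DS sg (H : Set G)) :
    sg g * x * sg g⁻¹ ∈ DS sg ((H.map (MulAut.conj g).toMonoidHom : Subgroup G) : Set G) :=
  DS_conj sg g (fun s hs => Subgroup.mem_map.mpr ⟨s, hs, rfl⟩) hx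

theorem DS_bot [CharP D 2] {x : D} (hx : x ∈ DS sg ((⊥ : Subgroup G) : Set G)) :
    x = 0 ∨ x = 1 := by
  refine Subfield.closure_induction (s := sg '' ((⊥ : Subgroup G) : Set G))
    (p := fun x _ => x = 0 ∨ x = 1) ?_ ?_ ?_ ?_ ?_ ?_ hx
  · rintro _ ⟨s, hs, rfl⟩
    right
    rw [show s = 1 from hs, map_one]
  · right; rfl
  · rintro a b _ _ (rfl | rfl) (rfl | rfl)
    · left; rw [add_zero]
    · right; rw [zero_add]
    · right; rw [add_zero]
    · left; exact CharTwo.add_self_eq_zero 1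
  · rintro a _ (rfl | rfl)
    · left; rw [neg_zero]
    · right; exact CharTwo.neg_eq 1
  · rintro a _ (rfl | rfl)
    · left; rw [inv_zero]
    · right; rw [inv_one]
  · rintro a b _ _ (rfl | rfl) (rfl | rfl)
    · left; rw [zero_mul]
    · left; rw [zero_mul]
    · left; rw [mul_zero]
    · right; rw [mul_one]

theorem src_main (S : Subgroup G) (e : Ex G) (he : e.In S) : e.src ≤ S ∧ e.tr ∈ S ∧
    e.val sg * sg (e.tr)⁻¹ ∈ DS sg (e.src : Set G) := by
  induction e with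
  | of g =>
    refine ⟨bot_le, he, ?_⟩
    show sg g * sg g⁻¹ ∈ _
    rw [sg_cancel]
    exact one_mem _
  | zero =>
    refine ⟨bot_le, one_mem _, ?_⟩
    show (0 : D) * _ ∈ _
    rw [zero_mul]
    exact zero_mem _
  | add a b iha ihb =>
    obtain ⟨ha1, ha2, ha3⟩ := iha he.1
    obtain ⟨hb1, hb2, hb3⟩ := ihb he.2
    refine ⟨?_, ha2, ?_⟩
    · show a.src ⊔ b.src ⊔ Subgroup.zpowers (b.tr * (a.tr)⁻¹) ≤ S
      refine sup_le (sup_le ha1 hb1) ?_
      rw [Subgroup.zpowers_le]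
      exact mul_mem hb2 (inv_mem ha2)
    · show (a.val sg + b.val sg) * sg (a.tr)⁻¹ ∈
        DS sg ((a.src ⊔ b.src ⊔ Subgroup.zpowers (b.tr * (a.tr)⁻¹) : Subgroup G) : Set G)
      have e1 : (a.val sg + b.val sg) * sg (a.tr)⁻¹ =
          a.val sg * sg (a.tr)⁻¹ + (b.val sg * sg (b.tr)⁻¹) * sg (b.tr * (a.tr)⁻¹) := by
        rw [add_mul, map_mul, mul_assoc (b.val sg), ← mul_assoc (sg (b.tr)⁻¹), sg_cancel', one_mul]
      rw [e1]
      refine add_mem (DS_mono sg ?_ ha3) (mul_mem (DS_mono sg ?_ hb3) (sg_mem sg ?_))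
      · exact fun x hx => (le_sup_left (a := a.src ⊔ b.src)) ((le_sup_left (a := a.src)) hx)
      · exact fun x hx => (le_sup_left (a := a.src ⊔ b.src)) ((le_sup_right (a := a.src)) hx)
      · exact (le_sup_right (a := a.src ⊔ b.src)) (Subgroup.mem_zpowers _)
  | mul a b iha ihb =>
    obtain ⟨ha1, ha2, ha3⟩ := iha he.1
    obtain ⟨hb1, hb2, hb3⟩ := ihb he.2
    refine ⟨?_, mul_mem ha2 hb2, ?_⟩
    · show a.src ⊔ (b.src).map (MulAut.conj a.tr).toMonoidHom ≤ S
      refine sup_le ha1 ?_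
      rintro _ ⟨x, hx, rfl⟩
      exact mul_mem (mul_mem ha2 (hb1 hx)) (inv_mem ha2)
    · show (a.val sg * b.val sg) * sg (a.tr * b.tr)⁻¹ ∈
        DS sg ((a.src ⊔ (b.src).map (MulAut.conj a.tr).toMonoidHom : Subgroup G) : Set G)
      have e1 : (a.val sg * b.val sg) * sg (a.tr * b.tr)⁻¹ =
          (a.val sg * sg (a.tr)⁻¹) * (sg a.tr * (b.val sg * sg (b.tr)⁻¹) * sg (a.tr)⁻¹) := by
        rw [mul_inv_rev, map_mul]
        have h1 := sg_cancel' sg a.tr
        calc a.val sg * b.val sg * (sg (b.tr)⁻¹ * sg (a.tr)⁻¹) =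
            a.val sg * 1 * (b.val sg * sg (b.tr)⁻¹ * sg (a.tr)⁻¹) := by noncomm_ring
          _ = a.val sg * (sg (a.tr)⁻¹ * sg a.tr) * (b.val sg * sg (b.tr)⁻¹ * sg (a.tr)⁻¹) := by
            rw [h1]
          _ = _ := by noncomm_ring
      rw [e1]
      refine mul_mem (DS_mono sg ?_ ha3) (DS_mono sg ?_ (DS_conj_map sg _ _ hb3))
      · exact le_sup_left (a := a.src)
      · exact le_sup_right (a := a.src)
  | inv a iha =>
    obtain ⟨ha1, ha2, ha3⟩ := iha he
    refine ⟨?_, inv_mem ha2, ?_⟩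
    · show (a.src).map (MulAut.conj (a.tr)⁻¹).toMonoidHom ≤ S
      rintro _ ⟨x, hx, rfl⟩
      exact mul_mem (mul_mem (inv_mem ha2) (ha1 hx)) (inv_mem (inv_mem ha2))
    · show (a.val sg)⁻¹ * sg ((a.tr)⁻¹)⁻¹ ∈
        DS sg (((a.src).map (MulAut.conj (a.tr)⁻¹).toMonoidHom : Subgroup G) : Set G)
      have h1 := DS_conj_map sg _ (a.tr)⁻¹ (inv_mem ha3)
      have e1 : sg (a.tr)⁻¹ * (a.val sg * sg (a.tr)⁻¹)⁻¹ * sg ((a.tr)⁻¹)⁻¹ =
          (a.val sg)⁻¹ * sg ((a.tr)⁻¹)⁻¹ := by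
        rw [mul_inv_rev, sg_inv, inv_inv, ← mul_assoc, sg_cancel', one_mul]
      rw [e1] at h1
      exact h1

end

/-- Module SRC. -/
theorem src : SrcStmt := by
  intro G D _ _ _ sg S e he
  obtain ⟨h1, h2, h3⟩ := src_main sg S e he
  refine ⟨h1, h2, h3, ?_⟩
  intro h4
  rw [h4] at h3
  have e1 : e.val sg = (e.val sg * sg (e.tr)⁻¹) * sg e.tr := by
    rw [mul_assoc, sg_cancel', mul_one]
  rcases DS_bot sg h3 with h5 | h5
  · left
    rw [e1, h5, zero_mul]
  · right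
    rw [e1, h5, one_mul]

/-- Module GE1. -/
theorem ge1 : Ge1Stmt := by
  intro K G D _ _ _ sg S hB
  have hone : cx K sg S 1 ≤ 1 := by
    have h1 := hB.le (Ex.of 1) (one_mem S)
    have h2 : (Ex.of (1 : G)).val sg = 1 := map_one sg
    rw [h2] at h1
    exact h1
  have hc1 : ∀ (H : Subgroup G) (E : Ell sg H), E.c 1 = 0 := by
    intro H E
    have := E.c_mul 1 (one_mem H) 1 (one_mem H)
    rw [mul_one] at this
    omega
  refine ⟨?_, ?_⟩
  · intro g hg u hu H E hH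
    have e1 : nv sg (Ex.of g) u = 1 := by
      show sg u * (sg g * sg g⁻¹) * sg u⁻¹ = 1
      rw [sg_cancel, mul_one, sg_cancel]
    rw [e1, E.L_one]
    have hco : ∀ i, (1 : HahnSeries ℤ D).coeff i = if i = 0 then 1 else 0 := by
      intro i
      rw [HahnSeries.coeff_one]
      by_cases h : i = 0
      · rw [if_pos h, if_pos h]
      · rw [if_neg h, if_neg h]
    refine ⟨?_, ?_, ?_⟩
    · intro i
      rw [hco]
      split_ifs
      · exact one_mem _
      · exact zero_mem _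
    · intro F
      have h1 : ∀ i ∈ F, cx K sg S ((1 : HahnSeries ℤ D).coeff i) =
          if i = 0 then cx K sg S 1 else 0 := by
        intro i _
        rw [hco]
        split_ifs
        · rfl
        · exact hB.zero
      rw [Finset.sum_congr rfl h1, Finset.sum_ite_eq' F (0 : ℤ) (fun _ => cx K sg S 1)]
      split_ifs
      · exact hone
      · exact K.nonneg 1
    · rintro ⟨r, hr, hne⟩
      exfalso
      apply hne
      have hr1 : r = 1 := hr
      rw [hr1, mul_one, mul_inv_cancel, hc1]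
  · intro _ u hu H E hH
    have e1 : nv sg (Ex.zero : Ex G) u = 0 := by
      show sg u * (0 * sg _) * sg u⁻¹ = 0
      rw [zero_mul, mul_zero, zero_mul]
    have e2 : E.L 0 = 0 := by
      rw [E.L_ker 0 (zero_mem _), HahnSeries.single_eq_zero]
    rw [e1, e2]
    refine ⟨?_, ?_, ?_⟩
    · intro i
      exact zero_mem _
    · intro F
      rw [Finset.sum_eq_zero]
      · exact K.nonneg _
      · intro i _
        exact hB.zero
    · rintro ⟨r, hr, hne⟩
      exfalso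
      apply hne
      have hr1 : r = 1 := hr
      rw [hr1, mul_one, mul_inv_cancel, hc1]

end Pool.Agent.HF.H21
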